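import Pool.Agent.V11307.D5.Core

set_option autoImplicit false

/-!
# The terms with rising factorials
-/

namespace Pool.Agent.V11307.D5

open Finset Pool.Agent.Helper857.Pad Polynomial

lemma asc_succ (x : ℚ) (n : ℕ) : (ascPochhammer ℚ (n+1)).eval x = (ascPochhammer ℚ n).eval x * (x + n) :=
  ascPochhammer_succ_eval n x

lemma asc_ne {x : ℚ} (h : ∀ n : ℕ, x + n ≠ 0) (n : ℕ) : (ascPochhammer ℚ n).eval x ≠ 0 := by
  induction n with
  | zero => simp
  | succ n ih => rw [asc_succ]; exact mul_ne_zero ih (h n)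

/-- the terms -/
lemma term {a : ℚ} (ha : ∀ z : ℤ, 2 * a ≠ z) (k : ℕ) :
    ((ascPochhammer ℚ k).eval a)^4 * ((2*k).factorial : ℚ) /
      ((k.factorial : ℚ)^4 * (ascPochhammer ℚ (2*k)).eval (2*a)) = T a k := by
  have hne : ∀ n : ℕ, 2*a + (n:ℚ) ≠ 0 := fun n => by exact_mod_cast ne2 ha n
  induction k with
  | zero => simp [T]
  | succ k ih =>
    rw [T, prod_range_succ, ← T, ← ih, w, show 2*(k+1) = 2*k+1+1 by ring, asc_succ, asc_succ, asc_succ,
      Nat.factorial_succ, Nat.factorial_succ, Nat.factorial_succ]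
    have h1 := asc_ne hne (2*k)
    have h2 : (k.factorial : ℚ) ≠ 0 := by exact_mod_cast k.factorial_ne_zero
    have h3 := hne (2*k)
    have h4 := hne (2*k+1)
    push_cast at h3 h4 ⊢
    have h5 : (k:ℚ) + 1 ≠ 0 := by positivity
    have h6 : 2*a + 1 + 2*(k:ℚ) ≠ 0 := by intro h; apply h4; linarith
    have h7 : a + (k:ℚ) ≠ 0 := by intro h; apply h3; linarith
    generalize eval a (ascPochhammer ℚ k) = A
    generalize eval (2*a) (ascPochhammer ℚ (2*k)) = B at *
    rw [show 2*a + (2*(k:ℚ)+1) = 2*a + 1 + 2*k by ring, show 2*a+2*(k:ℚ) = 2*(a+k) by ring]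
    field_simp
    ring

end Pool.Agent.V11307.D5
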