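import Pool.Agent.V11307.D5.Dougall
import Pool.Agent.Helper857.Pad

set_option autoImplicit false

/-!
# The supercongruence behind `5F4` with `a + m` divisible by `p`
-/

namespace Pool.Agent.V11307.D5

open Finset Pool.Agent.Helper857.Pad

/-- the term ratio -/
def w (a : ℚ) (j : ℕ) : ℚ :=
  (a + j)^3 * (1 + 2*j) * ((((j:ℚ) + 1)⁻¹)^3 * (2*a + 1 + 2*j)⁻¹)

/-- the term -/
def T (a : ℚ) (k : ℕ) : ℚ := ∏ j ∈ range k, w a j

/-- the second order term -/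
def u (a : ℚ) (j : ℕ) : ℚ := (((j:ℚ) + 1)⁻¹)^2 - ((a + j)⁻¹)^2

/-- its sum -/
def W (a : ℚ) (k : ℕ) : ℚ := ∑ j ∈ range k, u a j

variable {p : ℕ} [hp : Fact p.Prime]

lemma cmul {k : ℕ} {x x' y y' : ℚ} (hx : I p k (x - x')) (hy : I p k (y - y')) (h : x' ∈ Zp p)
    (h' : y ∈ Zp p) : I p k (x * y - x' * y') := by
  have := (hx.mul_mem h').add (I.mem_mul h hy)
  have e : (x - x') * y + x' * (y - y') = x * y - x' * y' := by ring
  rwa [e] at this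

/-- the arithmetic hypotheses -/
structure Ok (p : ℕ) [hp : Fact p.Prime] (a : ℚ) (m : ℕ) : Prop where
  ha : ∀ z : ℤ, 2 * a ≠ z
  haZ : a ∈ Zp p
  hx : I p 1 (a + m)
  h1 : ∀ j < m, ((j:ℚ) + 1)⁻¹ ∈ Zp p
  h2 : ∀ j < m, (a + j)⁻¹ ∈ Zp p
  h3 : ∀ j < m, (2*a + 1 + 2*j)⁻¹ ∈ Zp p

variable {a : ℚ} {m : ℕ} (ok : Ok p a m)

include ok

lemma w_mem {j : ℕ} (hj : j < m) : w a j ∈ Zp p := by
  unfold w
  have e1 := ok.h1 j hj
  have e3 := ok.h3 j hj
  have e0 : a + j ∈ Zp p := (Zp p).add_mem ok.haZ (nat_mem j)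
  have e4 : (1:ℚ) + 2 * j ∈ Zp p := by
    have := nat_mem (p := p) (1 + 2*j)
    push_cast at this
    exact this
  exact (Zp p).mul_mem ((Zp p).mul_mem ((Zp p).pow_mem e0 3) e4) ((Zp p).mul_mem ((Zp p).pow_mem e1 3) e3)

lemma T_mem {k : ℕ} (hk : k ≤ m) : T a k ∈ Zp p :=
  (Zp p).prod_mem (fun j hj => w_mem ok (by rw [mem_range] at hj; omega))

lemma u_mem {j : ℕ} (hj : j < m) : u a j ∈ Zp p :=
  (Zp p).sub_mem ((Zp p).pow_mem (ok.h1 j hj) 2) ((Zp p).pow_mem (ok.h2 j hj) 2)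

lemma W_mem {k : ℕ} (hk : k ≤ m) : W a k ∈ Zp p :=
  (Zp p).sum_mem (fun j hj => u_mem ok (by rw [mem_range] at hj; omega))

/-- step 1 -/
lemma r_w {j : ℕ} (hj : j < m) : I p 4 (r a (a + m) j - w a j * (1 + (a+m)^2 * u a j)) := by
  have e1 := ok.h1 j hj
  have e2 := ok.h2 j hj
  have e3 := ok.h3 j hj
  have n1 : (j:ℚ) + 1 ≠ 0 := by positivity
  have n2 : a + j ≠ 0 := by exact_mod_cast ne1 ok.ha j
  have hx := ok.hx
  have hb : I p 2 ((a+m)^2 * (((j:ℚ) + 1)⁻¹)^2) := (hx.pow 2).mul_mem ((Zp p).pow_mem e1 2)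
  have hun := unit (p := p) (x := 1 - (a+m)^2 * (((j:ℚ) + 1)⁻¹)^2) (by
    have := (I.mono (j := 1) (by norm_num) hb).neg
    have e : 1 - (a+m)^2 * (((j:ℚ) + 1)⁻¹)^2 - 1 = -((a+m)^2 * (((j:ℚ) + 1)⁻¹)^2) := by ring
    rwa [e])
  have h4 := (hb.mul ((hx.pow 2).mul_mem (u_mem ok hj))).mul_mem
    ((Zp p).mul_mem (w_mem ok hj) hun.2.1)
  have e : r a (a + m) j - w a j * (1 + (a+m)^2 * u a j) =
      (a+m)^2 * (((j:ℚ) + 1)⁻¹)^2 * ((a+m)^2 * u a j) *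
        (w a j * (1 - (a+m)^2 * (((j:ℚ) + 1)⁻¹)^2)⁻¹) := by
    have n3 : 2*a + 1 + 2*j ≠ 0 := by
      have := ne2 ok.ha (1 + 2*j)
      intro h; apply this; push_cast; linarith
    have er : r a (a+m) j = w a j * (1 - (a+m)^2 * ((a + j)⁻¹)^2) *
        (1 - (a+m)^2 * (((j:ℚ) + 1)⁻¹)^2)⁻¹ := by
      unfold r w
      have e5 : 1 - (a+m)^2 * (((j:ℚ) + 1)⁻¹)^2 = (((j:ℚ)+1)^2 - (a+m)^2) * (((j:ℚ) + 1)⁻¹)^2 := by
        field_simp
      have e6 : 1 - (a+m)^2 * ((a + j)⁻¹)^2 = ((a + j)^2 - (a+m)^2) * ((a + j)⁻¹)^2 := by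
        field_simp
      rw [e5, e6]
      rw [mul_inv (((j:ℚ)+1)^2 - (a+m)^2), ← inv_pow ((((j:ℚ) + 1)⁻¹)) 2, inv_inv]
      have n5 : ((j:ℚ)+1)^2 - (a+m)^2 ≠ 0 := by
        intro h0
        rw [h0, zero_mul] at e5
        exact hun.1 e5
      field_simp
    rw [er]
    have hn := hun.1
    unfold u
    generalize (((j:ℚ) + 1)⁻¹) = A at *
    generalize ((a + j)⁻¹) = B at *
    generalize w a j = C
    have : (1 - (a + m)^2 * A^2) * (1 - (a + m)^2 * A^2)⁻¹ = 1 := mul_inv_cancel₀ hn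
    generalize (1 - (a + m)^2 * A^2)⁻¹ = D at *
    linear_combination (C * (1 + (a+m)^2*(A^2 - B^2))) * this
  rw [e]
  exact h4

lemma V_T : ∀ k ≤ m, I p 4 (V a (a + m) k - T a k * (1 + (a+m)^2 * W a k)) := by
  intro k
  induction k with
  | zero =>
    intro _
    have e : V a (a + m) 0 - T a 0 * (1 + (a+m)^2 * W a 0) = 0 := by
      simp [V, T, W]
    rw [e]
    exact I.zero 4
  | succ k ih =>
    intro hk
    have h0 := ih (by omega)
    have h1 := r_w ok (j := k) (by omega)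
    have hw := w_mem ok (j := k) (by omega)
    have hu := u_mem ok (j := k) (by omega)
    have hT := T_mem ok (k := k) (by omega)
    have hW := W_mem ok (k := k) (by omega)
    have hx := ok.hx
    have hxm := hx.mem
    have hr : r a (a + m) k ∈ Zp p := by
      have := (Zp p).add_mem h1.mem ((Zp p).mul_mem hw ((Zp p).add_mem (Zp p).one_mem
        ((Zp p).mul_mem ((Zp p).pow_mem hxm 2) hu)))
      have e : r a (a + m) k - w a k * (1 + (a+m)^2 * u a k) + w a k * (1 + (a+m)^2 * u a k) =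
        r a (a+m) k := by ring
      rwa [e] at this
    have h2 := cmul h0 h1 ((Zp p).mul_mem hT ((Zp p).add_mem (Zp p).one_mem
        ((Zp p).mul_mem ((Zp p).pow_mem hxm 2) hW))) hr
    have h3 : I p 4 ((a+m)^2 * (a+m)^2 * (T a k * w a k * W a k * u a k)) :=
      ((hx.pow 2).mul (hx.pow 2)).mul_mem ((Zp p).mul_mem ((Zp p).mul_mem ((Zp p).mul_mem hT hw) hW) hu)
    have h4 := h2.add h3
    have e : V a (a+m) (k+1) - T a (k+1) * (1 + (a+m)^2 * W a (k+1)) =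
      V a (a + m) k * r a (a + m) k - T a k * (1 + (a+m)^2 * W a k) * (w a k * (1 + (a+m)^2 * u a k))
      + (a+m)^2 * (a+m)^2 * (T a k * w a k * W a k * u a k) := by
      rw [V_succ, T, W, prod_range_succ, sum_range_succ, ← T, ← W]
      ring
    rw [e]
    exact h4

/-- reflection -/
lemma s_refl {j : ℕ} (hj : j < m) : I p 1 ((a + (m - 1 - j : ℕ)) * ((j:ℚ) + 1)⁻¹ - (-1)) := by
  have e : (a + (m - 1 - j : ℕ)) * ((j:ℚ) + 1)⁻¹ - (-1) = (a + m) * ((j:ℚ) + 1)⁻¹ := by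
    have n1 : (j:ℚ) + 1 ≠ 0 := by positivity
    have : ((m - 1 - j : ℕ) : ℚ) = m - 1 - j := by
      rw [Nat.sub_sub, Nat.cast_sub (by omega)]; push_cast; ring
    rw [this]
    field_simp
    ring
  rw [e]
  exact ok.hx.mul_mem (ok.h1 j hj)

lemma t_refl {j : ℕ} (hj : j < m) :
    I p 1 ((1 + 2*((m - 1 - j : ℕ):ℚ)) * (2*a + 1 + 2*j)⁻¹ - (-1)) := by
  have n3 : 2*a + 1 + 2*j ≠ 0 := by
    have := ne2 ok.ha (1 + 2*j)
    intro h; apply this; push_cast; linarith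
  have e : (1 + 2*((m - 1 - j : ℕ):ℚ)) * (2*a + 1 + 2*j)⁻¹ - (-1) =
      (a + m) * (2 * (2*a + 1 + 2*j)⁻¹) := by
    have : ((m - 1 - j : ℕ) : ℚ) = m - 1 - j := by
      rw [Nat.sub_sub, Nat.cast_sub (by omega)]; push_cast; ring
    rw [this]
    field_simp
    ring
  rw [e]
  exact ok.hx.mul_mem ((Zp p).mul_mem (by exact_mod_cast nat_mem 2) (ok.h3 j hj))

lemma i_refl {j : ℕ} (hj : j < m) :
    I p 1 ((((m - 1 - j : ℕ):ℚ) + 1)⁻¹ - (-(a + j)⁻¹)) := by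
  have n2 : a + j ≠ 0 := by exact_mod_cast ne1 ok.ha j
  have n1 : ((m - 1 - j : ℕ):ℚ) + 1 ≠ 0 := by positivity
  have e : (((m - 1 - j : ℕ):ℚ) + 1)⁻¹ - (-(a + j)⁻¹) =
      (a + m) * ((a + j)⁻¹ * (((m - 1 - j : ℕ):ℚ) + 1)⁻¹) := by
    have : (a + m) = (a + j) + (((m - 1 - j : ℕ):ℚ) + 1) := by
      rw [Nat.sub_sub, Nat.cast_sub (by omega)]; push_cast; ring
    rw [this]
    field_simp
    ring
  rw [e]
  exact ok.hx.mul_mem ((Zp p).mul_mem (ok.h2 j hj) (ok.h1 _ (by omega)))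

omit ok in
lemma csq {x y : ℚ} (h : I p 1 (x - -y)) (hx : x ∈ Zp p) (hy : y ∈ Zp p) : I p 1 (x^2 - y^2) := by
  have := h.mul_mem ((Zp p).sub_mem hx hy)
  have e : (x - -y) * (x - y) = x^2 - y^2 := by ring
  rwa [e] at this

/-- the numbers `u` are antisymmetric -/
lemma u_refl {j : ℕ} (hj : j < m) : I p 1 (u a (m-1-j) + u a j) := by
  have h1 := csq (i_refl ok hj) (ok.h1 _ (by omega)) (ok.h2 j hj)
  have h2 := i_refl ok (j := m-1-j) (by omega)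
  rw [show m - 1 - (m - 1 - j) = j by omega] at h2
  have h3 := csq h2 (ok.h1 j hj) (ok.h2 _ (by omega))
  have := h1.add h3
  unfold u
  have e : ((((m - 1 - j : ℕ):ℚ) + 1)⁻¹)^2 - ((a + j)⁻¹)^2 +
    ((((j:ℚ) + 1)⁻¹)^2 - ((a + (m - 1 - j : ℕ))⁻¹)^2) =
    ((((m - 1 - j : ℕ):ℚ) + 1)⁻¹)^2 - ((a + (m - 1 - j : ℕ))⁻¹)^2 + ((((j:ℚ) + 1)⁻¹)^2 - ((a + j)⁻¹)^2) := by
    ring
  rwa [e] at this

omit ok in
lemma four {x : ℚ} (hx : x ∈ Zp p) (h : I p 1 (x - (-1))) : I p 1 (x^3 - (-1)) := by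
  have := h.mul_mem ((Zp p).add_mem ((Zp p).sub_mem ((Zp p).pow_mem hx 2) hx) (Zp p).one_mem)
  have e : (x - (-1)) * (x^2 - x + 1) = x^3 - (-1) := by ring
  rwa [e] at this

omit ok in
lemma neg_one_mul' {x y : ℚ} (hx : I p 1 (x - (-1))) (hy : I p 1 (y - (-1))) (h' : y ∈ Zp p) :
    I p 1 (x * y - 1) := by
  have := cmul hx hy ((Zp p).neg_mem (Zp p).one_mem) h'
  rwa [show (-1:ℚ) * (-1) = 1 by norm_num] at this

lemma num_mem (j : ℕ) : a + (j:ℚ) ∈ Zp p := (Zp p).add_mem ok.haZ (nat_mem j)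

omit ok in
lemma odd_mem (j : ℕ) : 1 + 2*(j:ℚ) ∈ Zp p := by
  have := nat_mem (p := p) (1 + 2*j)
  push_cast at this
  exact this

/-- `w` has reciprocal symmetry -/
lemma w_refl {j : ℕ} (hj : j < m) : I p 1 (w a j * w a (m-1-j) - 1) := by
  have hj' : m - 1 - j < m := by omega
  have s1 := s_refl ok hj
  have s2 := s_refl ok hj'
  have t1 := t_refl ok hj
  have t2 := t_refl ok hj'
  rw [show m - 1 - (m - 1 - j) = j by omega] at s2 t2
  have a1 := four ((Zp p).mul_mem (num_mem ok _) (ok.h1 j hj)) s1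
  have a2 := four ((Zp p).mul_mem (num_mem ok _) (ok.h1 _ hj')) s2
  have b1 := neg_one_mul' a1 t1 ((Zp p).mul_mem (odd_mem _) (ok.h3 _ hj))
  have b2 := neg_one_mul' a2 t2 ((Zp p).mul_mem (odd_mem _) (ok.h3 _ hj'))
  have b3 := cmul b1 b2 (Zp p).one_mem ((Zp p).mul_mem ((Zp p).pow_mem ((Zp p).mul_mem (num_mem ok _) (ok.h1 _ hj')) 3)
    ((Zp p).mul_mem (odd_mem _) (ok.h3 _ hj')))
  rw [mul_one] at b3
  unfold w
  have e2 : ((a + ((m - 1 - j : ℕ):ℚ)) * ((j:ℚ) + 1)⁻¹)^3 * ((1 + 2*((m - 1 - j : ℕ):ℚ)) * (2*a + 1 + 2*j)⁻¹) *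
      (((a + (j:ℚ)) * (((m - 1 - j : ℕ):ℚ) + 1)⁻¹)^3 * ((1 + 2*(j:ℚ)) * (2*a + 1 + 2*((m - 1 - j : ℕ):ℚ))⁻¹)) - 1
      = (a + (j:ℚ))^3 * (1 + 2*(j:ℚ)) * ((((j:ℚ) + 1)⁻¹)^3 * (2*a + 1 + 2*(j:ℚ))⁻¹) *
      ((a + ((m - 1 - j : ℕ):ℚ))^3 * (1 + 2*((m - 1 - j : ℕ):ℚ)) * (((((m - 1 - j : ℕ):ℚ) + 1)⁻¹)^3 *
        (2*a + 1 + 2*((m - 1 - j : ℕ):ℚ))⁻¹)) - 1 := by ring
  rw [e2] at b3
  exact b3

omit ok in
lemma prod_one' {f : ℕ → ℚ} {n : ℕ} (h : ∀ j < n, I p 1 (f j - 1)) : I p 1 (∏ j ∈ range n, f j - 1) :=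
  prod_one f n h

/-- `T m = 1` modulo `p` -/
lemma T_m : I p 1 (T a m - 1) := by
  have e : T a m = ∏ j ∈ range m, (((a + ((m - 1 - j : ℕ):ℚ)) * ((j:ℚ) + 1)⁻¹)^3 *
      ((1 + 2*((m - 1 - j : ℕ):ℚ)) * (2*a + 1 + 2*j)⁻¹)) := by
    unfold T w
    simp only [prod_mul_distrib, mul_pow]
    rw [← prod_range_reflect (fun j => (a + (j:ℚ))^3) m, ← prod_range_reflect (fun j => (1 + 2*(j:ℚ))) m]
    ring
  rw [e]
  apply prod_one'
  intro j hj
  exact neg_one_mul' (four ((Zp p).mul_mem (num_mem ok _) (ok.h1 j hj)) (s_refl ok hj)) (t_refl ok hj)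
    ((Zp p).mul_mem (odd_mem _) (ok.h3 _ hj))

lemma T_split {i : ℕ} (hi : i ≤ m) : T a m * T a i = T a (m - i) * ∏ j ∈ range i, (w a j * w a (m-1-j)) := by
  have h : T a m = T a (m-i) * ∏ j ∈ range i, w a (m-1-j) := by
    obtain ⟨c, rfl⟩ := Nat.exists_eq_add_of_le hi
    rw [show i + c - i = c by omega]
    rw [T, show i + c = c + i by omega, prod_range_add, ← T]
    congr 1
    rw [← prod_range_reflect]
    apply prod_congr rfl
    intro j hj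
    rw [mem_range] at hj
    congr 1
    omega
  rw [prod_mul_distrib, h]
  rw [T, T]
  ring

lemma T_refl {i : ℕ} (hi : i ≤ m) : I p 1 (T a (m-i) - T a i) := by
  have h1 : I p 1 (T a m * T a i - 1 * T a i) := by
    have := (T_m ok).mul_mem (T_mem ok hi)
    rwa [sub_mul] at this
  rw [T_split ok hi] at h1
  have h2 : I p 1 (∏ j ∈ range i, (w a j * w a (m-1-j)) - 1) :=
    prod_one' (fun j hj => w_refl ok (by omega))
  have h3 := h1.sub (I.mem_mul (T_mem ok (k := m - i) (by omega)) h2)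
  have e : T a (m - i) * ∏ j ∈ range i, (w a j * w a (m-1-j)) - 1 * T a i -
      T a (m - i) * (∏ j ∈ range i, (w a j * w a (m-1-j)) - 1) = T a (m-i) - T a i := by ring
  rwa [e] at h3

lemma W_m : I p 1 (W a m) := by
  have e : W a m = ∑ j ∈ range m, ((((((m - 1 - j : ℕ):ℚ)) + 1)⁻¹)^2 - ((a + (j:ℚ))⁻¹)^2) := by
    unfold W u
    rw [sum_sub_distrib, sum_sub_distrib, ← sum_range_reflect (fun j => (((j:ℚ) + 1)⁻¹)^2) m]
  rw [e]
  apply I.sum
  intro j hj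
  rw [mem_range] at hj
  exact csq (i_refl ok hj) (ok.h1 _ (by omega)) (ok.h2 j hj)

lemma W_refl {i : ℕ} (hi : i ≤ m) : I p 1 (W a (m-i) - W a i) := by
  have h : W a m = W a (m-i) + ∑ j ∈ range i, u a (m-1-j) := by
    obtain ⟨c, rfl⟩ := Nat.exists_eq_add_of_le hi
    rw [show i + c - i = c by omega]
    rw [W, show i + c = c + i by omega, sum_range_add, ← W]
    congr 1
    rw [← sum_range_reflect]
    apply sum_congr rfl
    intro j hj
    rw [mem_range] at hj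
    congr 1
    omega
  have h1 := W_m ok
  rw [h] at h1
  have h2 : I p 1 (∑ j ∈ range i, (u a (m-1-j) + u a j)) := by
    apply I.sum
    intro j hj
    rw [mem_range] at hj
    exact u_refl ok (by omega)
  rw [sum_add_distrib] at h2
  have h3 := h1.sub h2
  have e : W a (m - i) + ∑ j ∈ range i, u a (m-1-j) - (∑ j ∈ range i, u a (m-1-j) + ∑ j ∈ range i, u a j) =
      W a (m-i) - W a i := by rw [W, W]; ring
  rwa [e] at h3

/-- the second order term vanishes -/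
lemma S_int (h2 : p ≠ 2) : I p 1 (∑ k ∈ range (m+1), (a + 2*k) * (T a k * W a k)) := by
  have h0 : I p 1 (2 * ∑ k ∈ range (m+1), (a + 2*k) * (T a k * W a k)) := by
    have e : 2 * ∑ k ∈ range (m+1), (a + 2*k) * (T a k * W a k) =
        ∑ k ∈ range (m+1), ((a + 2*k) * (T a k * W a k) +
          (a + 2*((m + 1 - 1 - k : ℕ):ℚ)) * (T a (m+1-1-k) * W a (m+1-1-k))) := by
      rw [sum_add_distrib, sum_range_reflect (fun k => (a + 2*(k:ℚ)) * (T a k * W a k)) (m+1)]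
      ring
    rw [e]
    apply I.sum
    intro k hk
    rw [mem_range] at hk
    rw [show m + 1 - 1 - k = m - k by omega]
    have hk' : k ≤ m := by omega
    have e1 : ((m - k : ℕ):ℚ) = m - k := by rw [Nat.cast_sub hk']
    have hTW := cmul (T_refl ok hk') (W_refl ok hk') (T_mem ok hk') (W_mem ok (k := m-k) (by omega))
    have hb : a + 2*((m - k : ℕ):ℚ) ∈ Zp p := (Zp p).add_mem ok.haZ (by exact_mod_cast nat_mem (2*(m-k)))
    have h3 := I.mem_mul hb hTW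
    have h4 := ok.hx.mul_mem ((Zp p).mul_mem (show (2:ℚ) ∈ Zp p by exact_mod_cast nat_mem 2)
      ((Zp p).mul_mem (T_mem ok hk') (W_mem ok hk')))
    have h5 := h3.add h4
    rw [e1] at h5 ⊢
    have e2 : (a + 2*((m:ℚ) - k)) * (T a (m-k) * W a (m-k) - T a k * W a k) +
      (a + m) * (2 * (T a k * W a k)) = (a + 2*k) * (T a k * W a k) +
          (a + 2*((m:ℚ) - k)) * (T a (m-k) * W a (m-k)) := by ring
    rwa [e2] at h5
  have hc : ¬ p ∣ 2 := by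
    intro h
    exact h2 ((Nat.prime_dvd_prime_iff_eq hp.out Nat.prime_two).mp h)
  apply I.cancel hc
  exact_mod_cast h0

/-- **the supercongruence** -/
theorem core (h2 : p ≠ 2) : I p 3 (∑ k ∈ range (m+1), (a + 2*k) * T a k - (a + m)) := by
  have hD := dougall ok.ha m
  have h1 : I p 3 (∑ k ∈ range (m+1), (a + 2*k) * (V a (a + m) k - T a k * (1 + (a+m)^2 * W a k))) := by
    apply I.sum
    intro k hk
    rw [mem_range] at hk
    apply I.mem_mul _ (I.mono (by norm_num) (V_T ok k (by omega)))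
    exact (Zp p).add_mem ok.haZ (by exact_mod_cast nat_mem (2*k))
  have h3 := (ok.hx.pow 2).mul (S_int ok h2)
  have h4 := (h1.add h3).neg
  have e : -(∑ k ∈ range (m+1), (a + 2*k) * (V a (a + m) k - T a k * (1 + (a+m)^2 * W a k)) +
      (a+m)^2 * ∑ k ∈ range (m+1), (a + 2*k) * (T a k * W a k)) =
      ∑ k ∈ range (m+1), (a + 2*k) * T a k - (a + m) := by
    have key : ∑ k ∈ range (m+1), (a + 2*k) * (V a (a + m) k - T a k * (1 + (a+m)^2 * W a k)) =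
        ∑ k ∈ range (m+1), (a + 2*k) * V a (a + m) k - ∑ k ∈ range (m+1), (a + 2*k) * T a k -
          (a+m)^2 * ∑ k ∈ range (m+1), (a + 2*k) * (T a k * W a k) := by
      rw [mul_sum, ← sum_sub_distrib, ← sum_sub_distrib]
      apply sum_congr rfl
      intro k _
      ring
    rw [key, hD]
    ring
  rwa [e] at h4

end Pool.Agent.V11307.D5
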