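import Mathlib

set_option autoImplicit false

/-!
# A terminating very well poised `5F4` with `d = 1/2`
-/

namespace Pool.Agent.V11307.D5

open Finset

/-- the perturbed term ratio -/
def r (a x : ℚ) (j : ℕ) : ℚ :=
  (a + j) * (1 + 2*j) * ((a + j)^2 - x^2) / (((j:ℚ) + 1) * (2*a + 1 + 2*j) * (((j:ℚ) + 1)^2 - x^2))

/-- the perturbed term -/
def V (a x : ℚ) (k : ℕ) : ℚ := ∏ j ∈ range k, r a x j

lemma V_succ (a x : ℚ) (k : ℕ) : V a x (k+1) = V a x k * r a x k := by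
  rw [V, V, prod_range_succ]

lemma V_zero (a x : ℚ) : V a x 0 = 1 := by simp [V]

lemma r_eq (a : ℚ) (m j : ℕ) : r a (a + m) j =
    (a + j) * (1 + 2*j) * (((j:ℚ) - m) * (j + 2 * a + m)) /
      (((j:ℚ) + 1) * (2*a + 1 + 2*j) * (((j:ℚ) + 1 - a - m) * (j + 1 + a + m))) := by
  unfold r
  congr 1 <;> ring

variable {a : ℚ} (ha : ∀ z : ℤ, 2 * a ≠ z)

include ha

lemma ne1 (z : ℤ) : a + z ≠ 0 := by
  intro h
  apply ha (-(2*z))
  push_cast
  linarith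

lemma ne2 (z : ℤ) : 2 * a + z ≠ 0 := by
  intro h
  apply ha (-z)
  push_cast
  linarith

/-- the shape of the next term, `x = a + m + 1` against `x = a + m` -/
lemma next (m k : ℕ) (X Y : ℚ)
    (hA : X * ((m:ℚ) + 1 - k) * ((2*a+m) * (a+m) * (k+1+a+m)) =
      Y * (((m:ℚ) + 1) * (k+2*a+m) * (a+m-k) * (a+m+1))) :
    X * r a (a + (m+1:ℕ)) k =
      Y * ((a+k)*(1+2*k)*(m+1)*(k+2*a+m)*(a+m+1)*(k+2*a+m+1) /
        (((k:ℚ)+1)*(2*a+1+2*k)*((2*a+m)*(a+m)*(k+1+a+m)*(k+2+a+m)))) := by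
  have h1 : ((k:ℚ) + 1) ≠ 0 := by positivity
  have h2 : 2*a + 1 + 2*k ≠ 0 := by
    have := ne2 ha (1 + 2*k)
    intro h; apply this; push_cast; linarith
  have h4 : (k:ℚ) + 1 + a + m ≠ 0 := by
    have := ne1 ha (m + (k+1)); intro h; apply this; push_cast; linarith
  have h5 : a + m - (k:ℚ) ≠ 0 := by
    have := ne1 ha (m - k); intro h; apply this; push_cast; linarith
  have h6 : (k:ℚ) + 2 + a + m ≠ 0 := by
    have := ne1 ha (m + 1 + (k+1)); intro h; apply this; push_cast; linarith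
  have h8 : 2*a+m ≠ 0 := by exact_mod_cast ne2 ha m
  have h9 : a+m ≠ 0 := by exact_mod_cast ne1 ha m
  have key : X * ((m:ℚ) + 1 - k) =
      Y * (((m:ℚ) + 1) * (k+2*a+m) * (a+m-k) * (a+m+1)) / ((2*a+m) * (a+m) * (k+1+a+m)) := by
    rw [eq_div_iff (mul_ne_zero (mul_ne_zero h8 h9) h4)]
    exact hA
  have e : X * r a (a + (m+1:ℕ)) k = (X * ((m:ℚ) + 1 - k)) *
      ((a + k) * (1 + 2*k) * (k + 2 * a + m + 1) /
      (((k:ℚ) + 1) * (2*a + 1 + 2*k) * ((a+m-k) * (k + 2 + a + m)))) := by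
    rw [r_eq a (m+1) k]
    push_cast
    rw [show ((k:ℚ) + 1 - a - ((m:ℚ)+1)) = -(a+m-k) by ring, show (k:ℚ)+1+a+((m:ℚ)+1) = k+2+a+m by ring]
    field_simp
    ring
  rw [e, key]
  field_simp

lemma stepA (m k : ℕ) : V a (a + (m+1:ℕ)) k * ((m:ℚ) + 1 - k) * ((2*a+m) * (a+m) * (k+1+a+m)) =
    V a (a + m) k * (((m:ℚ) + 1) * (k+2*a+m) * (a+m-k) * (a+m+1)) := by
  induction k with
  | zero =>
    rw [V_zero, V_zero]
    push_cast
    ring
  | succ k ih =>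
    rw [V_succ, V_succ, next ha m k _ _ ih, r_eq a m k]
    have h1 : ((k:ℚ) + 1) ≠ 0 := by positivity
    have h2 : 2*a + 1 + 2*k ≠ 0 := by
      have := ne2 ha (1 + 2*k)
      intro h; apply this; push_cast; linarith
    have h3 : (k:ℚ) + 1 - a - m ≠ 0 := by
      have := ne1 ha (m - (k+1)); intro h; apply this; push_cast; linarith
    have h4 : (k:ℚ) + 1 + a + m ≠ 0 := by
      have := ne1 ha (m + (k+1)); intro h; apply this; push_cast; linarith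
    have h6 : (k:ℚ) + 2 + a + m ≠ 0 := by
      have := ne1 ha (m + 1 + (k+1)); intro h; apply this; push_cast; linarith
    have h8 : 2*a+m ≠ 0 := by exact_mod_cast ne2 ha m
    have h9 : a+m ≠ 0 := by exact_mod_cast ne1 ha m
    push_cast
    generalize V a (a + (m:ℚ)) k = Y
    have h5 : (k:ℚ) + 1 + a + m = k + 1 + a + m := rfl
    rw [show (k:ℚ)+1+1+a+m = k+2+a+m by ring]
    have e1 : Y * ((a+k)*(1+2*k)*(m+1)*(k+2*a+m)*(a+m+1)*(k+2*a+m+1) /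
        (((k:ℚ)+1)*(2*a+1+2*k)*((2*a+m)*(a+m)*(k+1+a+m)*(k+2+a+m)))) * ((m:ℚ)+1-(k+1)) *
        ((2*a+m)*(a+m)*(k+2+a+m)) =
        (Y * ((a+k)*(1+2*k)*(m+1)*(k+2*a+m)*(a+m+1)*(k+2*a+m+1)) * ((m:ℚ)+1-(k+1)) *
        ((2*a+m)*(a+m)*(k+2+a+m))) / (((k:ℚ)+1)*(2*a+1+2*k)*((2*a+m)*(a+m)*(k+1+a+m)*(k+2+a+m))) := by
      ring
    have e2 : Y * ((a + k) * (1 + 2*k) * (((k:ℚ) - m) * (k + 2 * a + m)) /
      (((k:ℚ) + 1) * (2*a + 1 + 2*k) * (((k:ℚ) + 1 - a - m) * (k + 1 + a + m)))) *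
        (((m:ℚ)+1)*(k+1+2*a+m)*(a+m-(k+1))*(a+m+1)) =
        (Y * ((a + k) * (1 + 2*k) * (((k:ℚ) - m) * (k + 2 * a + m))) *
        (((m:ℚ)+1)*(k+1+2*a+m)*(a+m-(k+1))*(a+m+1))) /
        (((k:ℚ) + 1) * (2*a + 1 + 2*k) * (((k:ℚ) + 1 - a - m) * (k + 1 + a + m))) := by
      ring
    rw [e1, e2, div_eq_div_iff
      (mul_ne_zero (mul_ne_zero h1 h2) (mul_ne_zero (mul_ne_zero (mul_ne_zero h8 h9) h4) h6))
      (mul_ne_zero (mul_ne_zero h1 h2) (mul_ne_zero h3 h4))]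
    ring

omit ha in
lemma small {x1 x2 x3 x4 x6 x8 x9 x10 : ℚ} (h1 : x1 ≠ 0) (h2 : x2 ≠ 0) (h3 : x3 ≠ 0) (h4 : x4 ≠ 0)
    (h6 : x6 ≠ 0) (h8 : x8 ≠ 0) (h9 : x9 ≠ 0) (h10 : x10 ≠ 0) (Y N0 N1 N2 N3 A : ℚ)
    (h : -(N0 * x3 * x6 * x1 * x2) + A * N1 * x3 - A * (N2 * x6 * x8) = -(N2 * N3)) :
    -(Y * N0) / (x9 * x4 * x8) + (A * (Y * (N1 * x10 / (x1 * x2 * (x8 * x9 * x4 * x6)))) / x10 -
      A * (Y * (N2 / (x1 * x2 * (x3 * x4)))) / x9) =
    -(Y * (N2 / (x1 * x2 * (x3 * x4))) * N3) / (x9 * x6 * x8) := by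
  field_simp
  linear_combination Y * h

set_option maxRecDepth 8000 in
lemma stepE (m k : ℕ) : ∑ i ∈ range (k+1), ((a + 2*i) * V a (a + (m+1:ℕ)) i / (a+m+1) -
      (a + 2*i) * V a (a + m) i / (a+m)) =
    -(V a (a + m) k * ((a+k) * (2*k+1) * (k+2*a+m))) / ((a+m) * (k+1+a+m) * (2*a+m)) := by
  have h8 : 2*a+m ≠ 0 := by exact_mod_cast ne2 ha m
  have h9 : a+m ≠ 0 := by exact_mod_cast ne1 ha m
  have h10 : a+m+1 ≠ 0 := by
    have := ne1 ha (m+1); push_cast at this; intro h; apply this; linarith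
  induction k with
  | zero =>
    rw [zero_add, sum_range_one, V_zero, V_zero]
    have h11' : ((0:ℕ):ℚ)+1+a+m ≠ 0 := by
      intro h; apply h10; push_cast at h; linarith
    push_cast at h11' ⊢
    rw [div_sub_div _ _ h10 h9, div_eq_div_iff (mul_ne_zero h10 h9) (mul_ne_zero (mul_ne_zero h9 h11') h8)]
    ring
  | succ k ih =>
    rw [sum_range_succ, ih]
    rw [V_succ a (a + (m+1:ℕ)) k, next ha m k _ _ (stepA ha m k), V_succ a (a+m) k, r_eq a m k]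
    have h1 : ((k:ℚ) + 1) ≠ 0 := by positivity
    have h2 : 2*a + 1 + 2*k ≠ 0 := by
      have := ne2 ha (1 + 2*k)
      intro h; apply this; push_cast; linarith
    have h3 : (k:ℚ) + 1 - a - m ≠ 0 := by
      have := ne1 ha (m - (k+1)); intro h; apply this; push_cast; linarith
    have h4 : (k:ℚ) + 1 + a + m ≠ 0 := by
      have := ne1 ha (m + (k+1)); intro h; apply this; push_cast; linarith
    have h6 : (k:ℚ) + 2 + a + m ≠ 0 := by
      have := ne1 ha (m + 1 + (k+1)); intro h; apply this; push_cast; linarith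
    push_cast
    rw [show (k:ℚ)+1+1+a+m = k+2+a+m by ring]
    generalize V a (a + (m:ℚ)) k = Y
    have := small h1 h2 h3 h4 h6 h8 h9 h10 Y ((a+k) * (2*k+1) * (k+2*a+m))
      ((a+k)*(1+2*k)*(m+1)*(k+2*a+m)*(k+2*a+m+1)) ((a + k) * (1 + 2*k) * (((k:ℚ) - m) * (k + 2 * a + m)))
      ((a+(k+1)) * (2*((k:ℚ)+1)+1) * (k+1+2*a+m)) (a + 2*((k:ℚ)+1)) (by ring)
    rw [← this]
    ring

/-- **Dougall's sum.** -/
theorem dougall (m : ℕ) : ∑ k ∈ range (m+1), (a + 2*k) * V a (a + m) k = a + m := by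
  have h9 : ∀ m : ℕ, a+m ≠ 0 := fun m => by exact_mod_cast ne1 ha m
  have main : ∀ m : ℕ, ∑ k ∈ range (m+1), (a + 2*k) * V a (a + m) k / (a + m) = 1 := by
    intro m
    induction m with
    | zero =>
      rw [zero_add, sum_range_one, V_zero]
      have := h9 0
      push_cast at this ⊢
      have h : a ≠ 0 := by simpa using this
      field_simp
      ring
    | succ m ih =>
      have hE := stepE ha m (m+1)
      have hV : V a (a + m) (m+1) = 0 := by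
        rw [V_succ, r_eq]
        simp
      rw [hV, sum_sub_distrib, sum_range_succ _ (m+1)] at hE
      rw [sum_range_succ (fun i : ℕ => (a + 2*(i:ℚ)) * V a (a + m) i / (a+m)) (m+1), hV, ih] at hE
      rw [sum_range_succ]
      simp only [mul_zero, zero_div, add_zero, zero_mul, neg_zero] at hE
      have e : (a + ((m+1:ℕ):ℚ)) = a + m + 1 := by push_cast; ring
      rw [e] at hE ⊢
      linarith
  have := main m
  rw [← sum_div, div_eq_one_iff_eq (h9 m)] at this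
  exact this

end Pool.Agent.V11307.D5
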